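import Pool.Agent.Helper88.GM.Goals
import Pool.Agent.Helper33.RR.GT

set_option autoImplicit false

/-!
# Packet GT of project GM (MP_69be96_nt), adapted from `Helper33.RR.GT`
-/

open Finset Filter Topology

open scoped Classical

namespace Pool.Agent.Helper6.GM

open Pool.Agent.Helper88.PP (pr Rg om Sf SS uu vv ee LA VV QQ cost nc dd)
open Pool.Agent.Helper88.RR (gg ab TB WB nz wb DB Db VM GB)
open Pool.Agent.Helper88.GM
open Pool.Agent.Helper33.RR (om_nonneg VM_nonneg VM_ge_one VV_nonneg ab_nonneg sum_ab Db_nonneg
  Db_le Db_zero card_labels prod_labels gg_nonneg gg_succ)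

theorem card_sp {P : Finset ℕ} (r : P → ℕ) : (sp r).card = nz r := by
  unfold sp nz
  exact Finset.card_image_of_injective _ Subtype.val_injective

theorem sp_sub {P : Finset ℕ} (r : P → ℕ) : sp r ⊆ P := by
  intro i hi
  simp only [sp, mem_image, mem_filter] at hi
  obtain ⟨j, -, rfl⟩ := hi
  exact j.2

theorem gt (hTS : StmtTS) (hGW : StmtGW) : StmtGT := by
  obtain ⟨c, hc, E0, hE0⟩ := hTS
  refine ⟨c, hc, max E0 16, ?_⟩
  intro E z x y hE hsr u v Q b hIn m q hm hqm hVV hK t ht P hP hPc h
  have hP' : P ⊆ Icc 1 z := by
    intro i hi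
    have := hP hi
    rw [mem_Icc] at this ⊢
    omega
  have hgB : ∀ r : P → ℕ, gB y z (sp r) = gg y z (nz r) := by
    intro r
    rw [hGW y z t (sp r) ((sp_sub r).trans hP), card_sp]
  have hE1 : E0 ≤ E := (le_max_left _ _).trans hE
  have hE2 : 16 ≤ E := (le_max_right _ _).trans hE
  set M : ℕ := E / 16 with hM
  have hM1 : 1 ≤ M := by omega
  have hz2 : 2 ≤ z := by
    have h1 := hsr.1
    have h2 : (2 : ℝ) ≤ Real.exp E := by
      have h3 := Real.add_one_le_exp (E : ℝ)
      have h4 : (16 : ℝ) ≤ E := by exact_mod_cast hE2
      linarith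
    exact_mod_cast h2.trans h1
  have hV : VV z m (q * m) ≠ 0 := by linarith
  have hVM := VM_ge_one hM1 hz2
  set Th : Finset (P → ℕ) := (TB m q M z P).filter (fun r => r h = 0) with hTh
  set S : Finset ℕ := SS z (z ^ M) with hS
  set co : ℕ → ℝ := fun r => if r = 0 then 1 else - ab m q z r with hco
  set cc : (P → ℕ) → ℝ := fun r' => Db m q M z (cost z (Function.update r' h 0)) *
    (1 / (VM M z * (Nat.totient (r' h) : ℝ))) * ∏ i ∈ univ.erase h, co (r' i) with hcc
  set T : Finset (P → ℕ) := (Th ×ˢ S).image (fun p => Function.update p.1 h p.2) with hT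
  have hinj : Set.InjOn (fun p : (P → ℕ) × ℕ => Function.update p.1 h p.2)
      ((Th ×ˢ S : Finset ((P → ℕ) × ℕ)) : Set ((P → ℕ) × ℕ)) := by
    rintro ⟨r, s⟩ hr ⟨r', s'⟩ hr' heq
    rw [mem_coe, mem_product] at hr hr'
    simp only [hTh, mem_filter] at hr hr'
    simp only at heq
    have h1 : s = s' := by
      have := congrFun heq h
      simpa using this
    have h2 : r = r' := by
      funext i
      by_cases hi : i = h
      · rw [hi, hr.1.2, hr'.1.2]
      · have := congrFun heq i
        simpa [Function.update_of_ne hi] using this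
    rw [h1, h2]
  have hupd0 : ∀ r ∈ Th, ∀ s, Function.update (Function.update r h s) h 0 = r := by
    intro r hr s
    rw [Function.update_idem]
    simp only [hTh, mem_filter] at hr
    rw [← hr.2, Function.update_eq_self]
  have hcardP : P.card ≤ y := by
    have := Finset.card_le_card hP
    rw [Nat.card_Icc] at this
    omega
  have hnz_le : ∀ r : P → ℕ, nz r ≤ y := by
    intro r
    unfold nz
    refine (Finset.card_le_univ _).trans ?_
    rw [Fintype.card_coe]
    exact hcardP
  have hnz_succ : ∀ r ∈ Th, ∀ s ∈ S, nz (Function.update r h s) = nz r + 1 := by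
    intro r hr s hs
    have hr0 : r h = 0 := by
      simp only [hTh, mem_filter] at hr
      exact hr.2
    have hs0 : s ≠ 0 := by
      simp only [hS, SS, mem_filter, mem_Ico] at hs
      omega
    unfold nz
    have h3 : (univ.filter (fun i => Function.update r h s i ≠ 0))
        = insert h (univ.filter (fun i => r i ≠ 0)) := by
      ext i
      rw [mem_insert]
      by_cases hih : i = h
      · subst hih
        simp [hs0]
      · simp [Function.update_of_ne hih, hih]
    rw [h3, Finset.card_insert_of_notMem]
    simp [hr0]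
  have hTS' := hE0 E z x y hE1 hsr u v Q b hIn m q (M / m + 1) hm hqm hVV hK P hP' hPc T cc {h}
    (by simp) ?_ ?_ ?_ ?_ ?_
  · -- conclusion
    have hGG : ∀ n, GB m q M z y P h n = ∑ r ∈ T, cc r * ∏ i, vv y z (r i) (n + (i : ℕ)) := by
      intro n
      rw [hT, Finset.sum_image hinj, Finset.sum_product]
      unfold GB
      refine Finset.sum_congr rfl fun r hr => Finset.sum_congr rfl fun s _ => ?_
      have hr0 : r h = 0 := by
        rw [hTh, mem_filter] at hr
        exact hr.2
      simp only [hcc]
      rw [hupd0 r hr s, Function.update_self]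
      rw [← Finset.mul_prod_erase univ (fun i : P => vv y z (Function.update r h s i) (n + (i : ℕ)))
        (mem_univ h), Function.update_self]
      rw [← Finset.mul_prod_erase univ (fun i : P => ((if r i = 0 then 1 else - ab m q z (r i)) *
        vv y z (r i) (n + (i : ℕ)))) (mem_univ h)]
      have e1 : ∏ i ∈ univ.erase h, co (Function.update r h s i)
          = ∏ i ∈ univ.erase h, co (r i) := by
        refine Finset.prod_congr rfl fun i hi => ?_
        rw [Function.update_of_ne (Finset.ne_of_mem_erase hi)]
      have e2 : ∏ i ∈ univ.erase h, vv y z (Function.update r h s i) (n + (i : ℕ))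
          = ∏ i ∈ univ.erase h, vv y z (r i) (n + (i : ℕ)) := by
        refine Finset.prod_congr rfl fun i hi => ?_
        rw [Function.update_of_ne (Finset.ne_of_mem_erase hi)]
      rw [e1, e2, hr0]
      have e3 : vv y z 0 (n + (h : ℕ)) = 1 := by simp [vv]
      rw [e3, Finset.prod_mul_distrib]
      simp only [if_true, one_mul, hco]
      ring
    have hmain : ∑ r ∈ T, cc r ^ 2 *
        (gg y z (nz r) * ∏ i, (if r i = 0 then 1 else (Nat.totient (r i) : ℝ))) ≤ om y z *
        ∑ r ∈ (TB m q M z P).filter (fun r => M < cost z r + q * m), wb m q y z r := by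
      rw [hT, Finset.sum_image hinj, Finset.sum_product]
      have hterm : ∀ r ∈ Th, ∀ s ∈ S, cc (Function.update r h s) ^ 2 *
          (gg y z (nz (Function.update r h s)) * ∏ i, (if Function.update r h s i = 0 then 1
            else (Nat.totient (Function.update r h s i) : ℝ))) =
          (Db m q M z (cost z r) ^ 2 * (gg y z (nz r + 1) * ∏ i : P,
            (if r i = 0 then 1 else ab m q z (r i) ^ 2 * (Nat.totient (r i) : ℝ)))) *
          ((1 / VM M z) ^ 2 * (1 / (Nat.totient s : ℝ))) := by
        intro r hr s hs
        have hr0 : r h = 0 := by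
          simp only [hTh, mem_filter] at hr
          exact hr.2
        have hs0 : s ≠ 0 := by
          simp only [hS, SS, mem_filter, mem_Ico] at hs
          omega
        have hs1 : (Nat.totient s : ℝ) ≠ 0 := by
          have : 0 < Nat.totient s := Nat.totient_pos.mpr (Nat.pos_of_ne_zero hs0)
          exact_mod_cast this.ne'
        rw [hnz_succ r hr s hs]
        simp only [hcc]
        rw [hupd0 r hr s, Function.update_self]
        rw [← Finset.mul_prod_erase univ (fun i : P => (if Function.update r h s i = 0 then (1 : ℝ)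
            else (Nat.totient (Function.update r h s i) : ℝ)))
          (mem_univ h), Function.update_self, if_neg hs0]
        rw [← Finset.mul_prod_erase univ (fun i : P => (if r i = 0 then (1 : ℝ) else
          ab m q z (r i) ^ 2 * (Nat.totient (r i) : ℝ))) (mem_univ h)]
        have e1 : ∏ i ∈ univ.erase h, co (Function.update r h s i)
            = ∏ i ∈ univ.erase h, co (r i) := by
          refine Finset.prod_congr rfl fun i hi => ?_
          rw [Function.update_of_ne (Finset.ne_of_mem_erase hi)]
        have e2 : ∏ i ∈ univ.erase h, (if Function.update r h s i = 0 then (1 : ℝ)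
            else (Nat.totient (Function.update r h s i) : ℝ))
            = ∏ i ∈ univ.erase h, (if r i = 0 then (1 : ℝ)
            else (Nat.totient (r i) : ℝ)) := by
          refine Finset.prod_congr rfl fun i hi => ?_
          rw [Function.update_of_ne (Finset.ne_of_mem_erase hi)]
        have e3 : (∏ i ∈ univ.erase h, co (r i)) ^ 2 * ∏ i ∈ univ.erase h,
            (if r i = 0 then (1 : ℝ) else (Nat.totient (r i) : ℝ))
            = ∏ i ∈ univ.erase h, (if r i = 0 then (1 : ℝ) else
              ab m q z (r i) ^ 2 * (Nat.totient (r i) : ℝ)) := by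
          rw [← Finset.prod_pow, ← Finset.prod_mul_distrib]
          refine Finset.prod_congr rfl fun i _ => ?_
          simp only [hco]
          split_ifs <;> ring
        rw [e1, e2, ← e3, hr0]
        simp only [if_true, one_mul]
        have hVM0 : VM M z ≠ 0 := by linarith
        field_simp
      rw [Finset.sum_congr rfl fun r hr => Finset.sum_congr rfl fun s hs => hterm r hr s hs]
      rw [Finset.sum_congr rfl fun r _ => (Finset.mul_sum _ _ _).symm, ← Finset.sum_mul,
        ← Finset.mul_sum]
      have e6 : (1 / VM M z) ^ 2 * ∑ s ∈ S, 1 / (Nat.totient s : ℝ) ≤ 1 := by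
        have e7 : (1 / VM M z) ^ 2 * ∑ s ∈ S, 1 / (Nat.totient s : ℝ) = 1 / VM M z := by
          show (1 / VM M z) ^ 2 * VM M z = _
          have hVM0 : VM M z ≠ 0 := by linarith
          field_simp
        rw [e7, div_le_one (by linarith)]
        exact hVM
      have hprod : ∀ r : P → ℕ, 0 ≤ ∏ i : P,
            (if r i = 0 then 1 else ab m q z (r i) ^ 2 * (Nat.totient (r i) : ℝ)) := by
        intro r
        refine Finset.prod_nonneg fun i _ => ?_
        split_ifs <;> positivity
      have hwb : ∀ r : P → ℕ, 0 ≤ wb m q y z r := by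
        intro r
        unfold wb
        exact mul_nonneg (gg_nonneg (hnz_le r)) (hprod r)
      have hlt : ∀ r ∈ Th, nz r + 1 ≤ y := by
        intro r hr
        have hs1 : (1 : ℕ) ∈ S := by
          simp only [hS, SS, mem_filter, mem_Ico]
          refine ⟨⟨le_rfl, Nat.one_lt_pow (by omega) (by omega)⟩, squarefree_one, ?_⟩
          intro p hp hp1
          exact absurd (Nat.dvd_one.mp hp1) hp.ne_one
        rw [← hnz_succ r hr 1 hs1]
        exact hnz_le _
      have e7 : ∑ r ∈ Th, Db m q M z (cost z r) ^ 2 * (gg y z (nz r + 1) * ∏ i : P,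
            (if r i = 0 then 1 else ab m q z (r i) ^ 2 * (Nat.totient (r i) : ℝ))) ≤
          om y z * ∑ r ∈ (TB m q M z P).filter (fun r => M < cost z r + q * m),
            wb m q y z r := by
        rw [Finset.mul_sum]
        conv_rhs => rw [Finset.sum_filter]
        have hstep : ∀ r ∈ Th, Db m q M z (cost z r) ^ 2 * (gg y z (nz r + 1) * ∏ i : P,
            (if r i = 0 then 1 else ab m q z (r i) ^ 2 * (Nat.totient (r i) : ℝ))) ≤
            (if M < cost z r + q * m then om y z * wb m q y z r else 0) := by
          intro r hr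
          split_ifs with hcost
          · have h1 := Db_le m q M z (cost z r) hV
            have h2 := Db_nonneg m q M z (cost z r)
            have h3 : Db m q M z (cost z r) ^ 2 ≤ 1 := pow_le_one₀ h2 h1
            have h4 : 0 ≤ gg y z (nz r + 1) * ∏ i : P,
              (if r i = 0 then 1 else ab m q z (r i) ^ 2 * (Nat.totient (r i) : ℝ)) :=
              mul_nonneg (gg_nonneg (hlt r hr)) (hprod r)
            calc _ ≤ 1 * _ := mul_le_mul_of_nonneg_right h3 h4
              _ = _ := one_mul _
              _ ≤ (om y z * gg y z (nz r)) * ∏ i : P,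
                  (if r i = 0 then 1 else ab m q z (r i) ^ 2 * (Nat.totient (r i) : ℝ)) :=
                mul_le_mul_of_nonneg_right (gg_succ (hlt r hr)) (hprod r)
              _ = _ := by
                unfold wb
                rw [mul_assoc]
          · rw [Db_zero m q M z (cost z r) hz2 (by omega)]
            simp
        refine (Finset.sum_le_sum hstep).trans ?_
        refine Finset.sum_le_sum_of_subset_of_nonneg (Finset.filter_subset _ _) fun r _ _ => ?_
        split_ifs
        · exact mul_nonneg (om_nonneg y z) (hwb r)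
        · exact le_rfl
      have h0 : 0 ≤ ∑ r ∈ Th, Db m q M z (cost z r) ^ 2 * (gg y z (nz r + 1) * ∏ i : P,
            (if r i = 0 then 1 else ab m q z (r i) ^ 2 * (Nat.totient (r i) : ℝ))) :=
        Finset.sum_nonneg fun r hr =>
          mul_nonneg (sq_nonneg _) (mul_nonneg (gg_nonneg (hlt r hr)) (hprod r))
      calc _ ≤ (∑ r ∈ Th, Db m q M z (cost z r) ^ 2 * (gg y z (nz r + 1) * ∏ i : P,
            (if r i = 0 then 1 else ab m q z (r i) ^ 2 * (Nat.totient (r i) : ℝ)))) * 1 :=
            mul_le_mul_of_nonneg_left e6 h0
        _ = _ := mul_one _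
        _ ≤ _ := e7
    have hXX : 0 ≤ XI u v Q := by
      unfold XI
      positivity
    have h1 := (abs_le.mp hTS').2
    simp only [hgB] at h1
    rw [Finset.card_singleton, pow_one] at h1
    rw [Finset.sum_congr rfl fun n _ => by rw [hGG n]]
    have h2 := mul_le_mul_of_nonneg_left hmain hXX
    calc _ ≤ XI u v Q * ∑ r ∈ T, cc r ^ 2 *
          (gg y z (nz r) * ∏ i, (if r i = 0 then 1 else (Nat.totient (r i) : ℝ)))
          + Real.exp (-(c * E)) * om y z * XI u v Q := by
          linarith
      _ ≤ _ := by
          rw [mul_add]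
          have e8 : XI u v Q * om y z * Real.exp (-(c * E)) = Real.exp (-(c * E)) * om y z * XI u v Q := by
            ring
          rw [e8, mul_assoc (XI u v Q) (om y z)]
          linarith
  · intro r' hr' i hi
    rw [hT, mem_image] at hr'
    obtain ⟨⟨r, s⟩, hrs, rfl⟩ := hr'
    rw [mem_product] at hrs
    have hi' : i ≠ h := by simpa using hi
    simp only
    rw [Function.update_of_ne hi']
    have h1 := hrs.1
    simp only [hTh, TB, mem_filter, Fintype.mem_piFinset, mem_insert] at h1
    exact h1.1.1 i
  · intro r' hr' i hi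
    rw [hT, mem_image] at hr'
    obtain ⟨⟨r, s⟩, hrs, rfl⟩ := hr'
    rw [mem_product] at hrs
    have hi' : i = h := by simpa using hi
    subst hi'
    simp only
    rw [Function.update_self]
    exact hrs.2
  · intro r' hr'
    rw [hT, mem_image] at hr'
    obtain ⟨⟨r, s⟩, hrs, rfl⟩ := hr'
    rw [mem_product] at hrs
    have h1 := hrs.1
    simp only
    rw [hnz_succ r hrs.1 s hrs.2]
    simp only [hTh, mem_filter] at h1
    have h2 := card_labels hm hz2 h1.1
    omega
  · intro r' hr'
    rw [hT, mem_image] at hr'
    obtain ⟨⟨r, s⟩, hrs, rfl⟩ := hr'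
    rw [mem_product] at hrs
    have h1 := hrs.1
    simp only [hTh, mem_filter] at h1
    have h2 := prod_labels hz2 h1.1
    have hs := hrs.2
    simp only [hS, SS, mem_filter, mem_Ico] at hs
    simp only
    rw [← Finset.mul_prod_erase univ (fun i : P => max 1 (Function.update r h s i)) (mem_univ h),
      Function.update_self]
    rw [← Finset.mul_prod_erase univ (fun i : P => max 1 (r i)) (mem_univ h)] at h2
    have e1 : ∏ i ∈ univ.erase h, max 1 (Function.update r h s i)
        = ∏ i ∈ univ.erase h, max 1 (r i) := by
      refine Finset.prod_congr rfl fun i hi => ?_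
      rw [Function.update_of_ne (Finset.ne_of_mem_erase hi)]
    rw [e1, h1.2] at *
    simp only [Nat.max_eq_left (Nat.zero_le 1), one_mul] at h2
    change _ ≤ z ^ (2 * M)
    rw [two_mul, pow_add]
    exact Nat.mul_le_mul (by omega) h2
  · intro r' hr'
    rw [hT, mem_image] at hr'
    obtain ⟨⟨r, s⟩, hrs, rfl⟩ := hr'
    rw [mem_product] at hrs
    have h1 := hrs.1
    simp only [hcc]
    rw [hupd0 r hrs.1 s]
    rw [← Finset.mul_prod_erase univ (fun i : P => if i ∈ ({h} : Finset P) then
      1 / (VM M z * (Nat.totient (Function.update r h s i) : ℝ)) else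
      if Function.update r h s i = 0 then 1 else ab m q z (Function.update r h s i)) (mem_univ h)]
    rw [Function.update_self, if_pos (by simp), abs_mul, abs_mul,
      abs_of_nonneg (Db_nonneg m q M z _), Finset.abs_prod]
    have h2 : 0 ≤ 1 / (VM M z * (Nat.totient s : ℝ)) := by
      have := VM_nonneg M z
      positivity
    rw [abs_of_nonneg h2]
    have e1 : ∏ i ∈ univ.erase h, |co (Function.update r h s i)| =
        ∏ i ∈ univ.erase h, (if i ∈ ({h} : Finset P) then
          1 / (VM M z * (Nat.totient (Function.update r h s i) : ℝ)) else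
          if Function.update r h s i = 0 then 1 else ab m q z (Function.update r h s i)) := by
      refine Finset.prod_congr rfl fun i hi => ?_
      rw [if_neg (by simpa using Finset.ne_of_mem_erase hi)]
      simp only [hco]
      split_ifs
      · simp
      · rw [abs_neg, abs_of_nonneg (ab_nonneg _ _ _ _)]
    rw [e1]
    refine mul_le_mul_of_nonneg_right ?_ ?_
    · calc _ ≤ 1 * (1 / (VM M z * (Nat.totient s : ℝ))) :=
            mul_le_mul_of_nonneg_right (Db_le m q M z _ hV) h2
        _ = _ := one_mul _
    · rw [← e1]
      exact Finset.prod_nonneg fun _ _ => abs_nonneg _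

end Pool.Agent.Helper6.GM
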